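import Pool.Agent.D4.Key

/-!
# The group `⟨Γ, t | t ^ 2 = a⟩` for an element `a` of infinite order

`kappa` is not zero over this group, with the character which is `1` on `Γ` and `-1` at `t`.
-/

namespace Pool.Agent.PB

open Multiplicative Pool.Agent.D4

section amalgam

variable {Γ : Type} [Group Γ] (a : Γ)

/-- The normal closure of `a * s⁻²` in the free product of `Γ` and the infinite cyclic group
generated by `s`. -/
def relN : Subgroup (Monoid.Coprod Γ (Multiplicative ℤ)) :=
  Subgroup.normalClosure {Monoid.Coprod.inl a * (Monoid.Coprod.inr (ofAdd (2 : ℤ)))⁻¹}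

instance : (relN a).Normal := Subgroup.normalClosure_normal

/-- The group `⟨Γ, t | t ^ 2 = a⟩`. -/
abbrev Amal : Type := Monoid.Coprod Γ (Multiplicative ℤ) ⧸ relN a

/-- The map of `Γ`. -/
def amalI : Γ →* Amal a := (QuotientGroup.mk' (relN a)).comp Monoid.Coprod.inl

/-- The map of the infinite cyclic group. -/
def amalJ : Multiplicative ℤ →* Amal a := (QuotientGroup.mk' (relN a)).comp Monoid.Coprod.inr

/-- The root. -/
def amalT : Amal a := amalJ a (ofAdd (1 : ℤ))

theorem amalI_eq : amalI a a = amalJ a (ofAdd (2 : ℤ)) := by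
  have h : Monoid.Coprod.inl a * (Monoid.Coprod.inr (ofAdd (2 : ℤ)))⁻¹ ∈ relN a :=
    Subgroup.subset_normalClosure rfl
  have h1 : (QuotientGroup.mk' (relN a))
      (Monoid.Coprod.inl a * (Monoid.Coprod.inr (ofAdd (2 : ℤ)))⁻¹) = 1 :=
    (QuotientGroup.eq_one_iff _).2 h
  rw [map_mul, map_inv, mul_inv_eq_one] at h1
  exact h1

theorem amalT_mul_self : amalT a * amalT a = amalI a a := by
  rw [amalI_eq, amalT, ← map_mul]
  rfl

/-- The map given by maps of `Γ` and of the infinite cyclic group. -/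
def amalDesc {K : Type} [Group K] (f : Γ →* K) (g : Multiplicative ℤ →* K)
    (h : f a = g (ofAdd (2 : ℤ))) : Amal a →* K :=
  QuotientGroup.lift (relN a) (Monoid.Coprod.lift f g) (by
    have h2 : relN a ≤ (Monoid.Coprod.lift f g).ker := by
      refine Subgroup.normalClosure_le_normal ?_
      rintro x rfl
      rw [SetLike.mem_coe, MonoidHom.mem_ker, map_mul, map_inv, Monoid.Coprod.lift_apply_inl,
        Monoid.Coprod.lift_apply_inr, h, mul_inv_cancel]
    exact fun x hx => h2 hx)

theorem amalDesc_comp_I {K : Type} [Group K] (f : Γ →* K) (g : Multiplicative ℤ →* K)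
    (h : f a = g (ofAdd (2 : ℤ))) : (amalDesc a f g h).comp (amalI a) = f := by
  ext x
  change Monoid.Coprod.lift f g (Monoid.Coprod.inl x) = f x
  rw [Monoid.Coprod.lift_apply_inl]

theorem amalDesc_comp_J {K : Type} [Group K] (f : Γ →* K) (g : Multiplicative ℤ →* K)
    (h : f a = g (ofAdd (2 : ℤ))) : (amalDesc a f g h).comp (amalJ a) = g := by
  refine MonoidHom.ext fun x => ?_
  change Monoid.Coprod.lift f g (Monoid.Coprod.inr x) = g x
  rw [Monoid.Coprod.lift_apply_inr]

theorem amal_hom_ext {K : Type} [Group K] {c d : Amal a →* K}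
    (h1 : c.comp (amalI a) = d.comp (amalI a)) (h2 : c.comp (amalJ a) = d.comp (amalJ a)) :
    c = d := by
  refine QuotientGroup.monoidHom_ext _ (Monoid.Coprod.hom_ext ?_ ?_)
  · rw [MonoidHom.comp_assoc, MonoidHom.comp_assoc]
    exact h1
  · rw [MonoidHom.comp_assoc, MonoidHom.comp_assoc]
    exact h2

theorem pushout_amal : Pushout (zpowersHom Γ a) (zpowersHom (Multiplicative ℤ) (ofAdd (2 : ℤ)))
    (amalI a) (amalJ a) where
  comm := by
    ext
    simp only [MonoidHom.comp_apply, zpowersHom_apply, toAdd_ofAdd, zpow_one]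
    exact amalI_eq a
  desc K _ f g hfg := by
    have h : f a = g (ofAdd (2 : ℤ)) := by
      have h1 := DFunLike.congr_fun hfg (ofAdd (1 : ℤ))
      simpa using h1
    refine ⟨amalDesc a f g h, ⟨amalDesc_comp_I a f g h, amalDesc_comp_J a f g h⟩, ?_⟩
    rintro c ⟨hc1, hc2⟩
    refine amal_hom_ext a ?_ ?_
    · rw [hc1, amalDesc_comp_I]
    · rw [hc2, amalDesc_comp_J]

theorem parity_two : parity (ofAdd (2 : ℤ)) = 1 := by
  simp [parity]

theorem parity_one : parity (ofAdd (1 : ℤ)) = -1 := by
  simp [parity]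

/-- The character which is `1` on `Γ` and `-1` at the root. -/
def amalChar : Amal a →* ℤˣ :=
  amalDesc a (1 : Γ →* ℤˣ) parity (by rw [parity_two]; rfl)

theorem amalChar_I : (amalChar a).comp (amalI a) = 1 := amalDesc_comp_I a _ _ _

theorem amalChar_J : (amalChar a).comp (amalJ a) = parity := amalDesc_comp_J a _ _ _

theorem amalChar_T : amalChar a (amalT a) = -1 := by
  have h := DFunLike.congr_fun (amalChar_J a) (ofAdd (1 : ℤ))
  rw [MonoidHom.comp_apply, parity_one] at h
  exact h

theorem k_ne_zero (ha : ∀ n : ℤ, a ^ n = 1 → n = 0) (Ω : Theory) : Ω.k (amalChar a) ≠ 0 := by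
  intro hk
  have hi : Function.Injective (zpowersHom Γ a) := by
    rw [injective_iff_map_eq_one]
    intro x hx
    have h1 := ha (toAdd x) (by simpa using hx)
    exact toAdd.injective h1
  have hj : Function.Injective (zpowersHom (Multiplicative ℤ) (ofAdd (2 : ℤ))) := by
    intro x y hxy
    simp only [zpowersHom_apply, ← ofAdd_zsmul] at hxy
    have h1 := ofAdd.injective hxy
    simp only [smul_eq_mul] at h1
    apply toAdd.injective
    omega
  have hsum : Ω.map (amalI a) rfl (Ω.k ((amalChar a).comp (amalI a))) =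
      Ω.map (amalJ a) rfl (0 : Ω.obj ((amalChar a).comp (amalJ a))) := by
    rw [map_k, hk, map_zero]
  obtain ⟨c, hc1, hc2⟩ := Ω.mayerVietoris _ _ _ _ (pushout_amal a) hi hj
    (amalChar a) _ _ hsum
  have hχ : ((amalChar a).comp (amalI a)).comp (zpowersHom Γ a) = 1 := by
    rw [amalChar_I]
    rfl
  obtain ⟨n, rfl⟩ := circle' Ω _ hχ c
  have hn : n = 1 := by
    rw [map_zsmul, map_k] at hc1
    have h2 : (n - 1) • Ω.k ((amalChar a).comp (amalI a)) = 0 := by
      rw [sub_smul, hc1, one_smul, sub_self]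
    have := point' Ω _ (amalChar_I a) _ h2
    omega
  subst hn
  have hcomm : ((amalChar a).comp (amalJ a)).comp
      (zpowersHom (Multiplicative ℤ) (ofAdd (2 : ℤ))) =
      ((amalChar a).comp (amalI a)).comp (zpowersHom Γ a) := by
    rw [MonoidHom.comp_assoc, MonoidHom.comp_assoc, (pushout_amal a).comm]
  have h3 := hc2 hcomm
  rw [one_smul, map_k] at h3
  exact moebius' Ω _ (amalChar_J a) h3

end amalgam

/-- An element `a` of infinite order of a group `Γ` has a root `t` in a group `G` over `Γ`, with a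
character which is `1` on `Γ` and `-1` at `t`, such that `kappa` is not zero over `G`. -/
theorem exists_amalgam {Γ : Type} [Group Γ] (a : Γ) (ha : ∀ n : ℤ, a ^ n = 1 → n = 0) :
    ∃ (G : Type) (_ : Group G) (i : Γ →* G) (t : G) (χ : G →* ℤˣ), t * t = i a ∧
      χ.comp i = 1 ∧ χ t = -1 ∧ ∀ Ω : D4.Theory, Ω.k χ ≠ 0 :=
  ⟨Amal a, inferInstance, amalI a, amalT a, amalChar a, amalT_mul_self a, amalChar_I a,
    amalChar_T a, fun Ω => k_ne_zero a ha Ω⟩

end Pool.Agent.PB
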