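import Pool.Agent.CC39.Defs
import Pool.Agent.D4.Defs

/-!
# Pin⁻ bordism and the two fillers: definitions for the statement

Labellings of the edges of a triangulated manifold by a group, the Pin⁻ bordism theory of closed
triangulated 4-manifolds with such a labelling, and the property of the fillers
`(Mb × S²) # Z` of the core (`Mb` the Moebius band, `Z` simply connected).
-/

namespace Pool.Agent.PB

open Pool.Agent.DT70 Pool.Agent.MK Pool.Agent.CC39

/-- `ℓ` is a flat labelling of the edges of the complex `X` by elements of the group `G`: the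
label of the edge from `u` to `v` is `ℓ u v`, and `ℓ u v * ℓ v w = ℓ u w` in each facet (so
`ℓ u u = 1` and `ℓ v u = (ℓ u v)⁻¹`). Up to homotopy this is a map from the realization of `X` to
the classifying space `BG`. -/
def FlatL (X : Code) {G : Type} [Group G] (ℓ : ℕ → ℕ → G) : Prop :=
  ∀ f ∈ X, ∀ u ∈ f, ∀ v ∈ f, ∀ w ∈ f, ℓ u v * ℓ v w = ℓ u w

/-- The Pin⁻ bordism theory: a `Theory` (bordism groups `obj χ` of groups with orientation
character, `kappa` the class of the K3 surface), and for each closed triangulated 4-manifold `X`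
and each flat labelling `ℓ` of `X` by the group `G` with the character `χ` the set `cls X χ ℓ` of
the classes `[X, P, f]`, where `f : X → BG` is the map given by `ℓ` and `P` runs through the
Pin⁻ structures of `X`, if `w₁ X = χ ∘ f`. (More precisely the `χ`-twisted spin structures. There
are none if `w₁ X ≠ χ ∘ f` or if `X` has no Pin⁻ structure: then the set is empty.) -/
structure PinMinus extends D4.Theory where
  /-- the set of classes of a labelled manifold -/
  cls : Code → ∀ {G : Type} [Group G] (χ : G →* ℤˣ), (ℕ → ℕ → G) → Set (toTheory.obj χ)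
  /-- The classes are PL invariants: a PL homeomorphism carries the map to `BG` and the Pin⁻
  structures of `X` to those of `X'`. -/
  invariant : ∀ X X' : Code, Mfd false X → Mfd false X' → PLHomeo X X' →
    ∀ {G : Type} [Group G] (χ : G →* ℤˣ) (ℓ : ℕ → ℕ → G), FlatL X ℓ →
      ∃ ℓ' : ℕ → ℕ → G, FlatL X' ℓ' ∧ cls X' χ ℓ' = cls X χ ℓ

/-- How often the edge from `x` to `y` crosses the wall `x 0 ≤ -3`, `1 < x 2 < 2` in the direction
of the coordinate 2. The wall meets the solid torus in one disc; so this is the flat labelling
of the solid torus by the integers with the sum 1 along the circle. -/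
def cut (x y : P) : ℤ :=
  if x 0 ≤ -3 ∧ y 0 ≤ -3 then (if 2 ≤ y 2 then 1 else 0) - (if 2 ≤ x 2 then 1 else 0) else 0

/-- The filler `F` is `(Mb × S²) # Z`, glued with the product framing (radial, `x 1`, `x 3`) of the
planar ring, where `Z` is closed and simply connected with the class `z`. The property: all
classes of each of the closed manifolds `C ++ F` (`Y` a spine, `C` the exterior of the core) are
equal to `z`, for all flat labellings (`C ++ F` is the boundary of a handlebody of index at most
two, to which all labellings and Pin⁻ structures extend, connected sum `Z`; it is not orientable,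
so the sign of `z` does not matter). And there is a flat labelling `m` of `D ++ F` by the integers
(the generator is the core circle of `Mb`), which is twice `cut` on the collar `D`, such that the
orientation character of `C ++ F` is trivial on `C` and the parity of `m` on `F`, and `C ++ F` has
a Pin⁻ structure: so `cls` is not empty if this character is `χ ∘ ℓ`. -/
structure PinMinus.Fills (Ω : PinMinus) (D F : Code) (z : Ω.obj (1 : Unit →* ℤˣ)) : Prop where
  classes : ∀ (Y : Set P) (C : Code), Spine Y → Lists (K (Y ∪ TT) \ Core) C →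
    ∀ {G : Type} [Group G] (χ : G →* ℤˣ) (ℓ : ℕ → ℕ → G), FlatL (C ++ F) ℓ →
      ∀ x ∈ Ω.cls (C ++ F) χ ℓ, x = Ω.map (1 : Unit →* G) (MonoidHom.comp_one _) z
  pin : ∃ m : ℕ → ℕ → Multiplicative ℤ, FlatL (D ++ F) m ∧
    (∀ s ∈ Tor \ Core, ∀ x ∈ s, ∀ y ∈ s,
      m (nam x) (nam y) = Multiplicative.ofAdd (2 * cut x y)) ∧
    ∀ (Y : Set P) (C : Code), Spine Y → Lists (K (Y ∪ TT) \ Core) C →
      ∀ {G : Type} [Group G] (χ : G →* ℤˣ) (ℓ : ℕ → ℕ → G), FlatL (C ++ F) ℓ →
        (∀ f ∈ C, ∀ u ∈ f, ∀ v ∈ f, χ (ℓ u v) = 1) →
        (∀ f ∈ F, ∀ u ∈ f, ∀ v ∈ f, χ (ℓ u v) = D4.parity (m u v)) →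
        (Ω.cls (C ++ F) χ ℓ).Nonempty

end Pool.Agent.PB
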