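import Pool.Agent.PB.NotPL
import Pool.Agent.CC39.Main

/-! Module PB/Final. The main theorem. -/

set_option autoImplicit false

namespace Pool.Agent.PB

open Pool.Agent.DT70 Pool.Agent.MK Pool.Agent.CC39

theorem main :
    ∃ (p : ℕ → Prop) (Y : ℕ → Set P) (Y₀ : Set P) (C : ℕ → Code) (C₀ D : Code),
      (REPred p ∧ ∀ q : ℕ → Prop, REPred q → q ≤₀ p) ∧ Computable C ∧ Lists (Tor \ Core) D ∧
      (∀ n, Spine (Y n) ∧ Lists (K (Y n ∪ TT) \ Core) (C n) ∧ (¬ p n → Essential (Y n))) ∧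
      (Spine Y₀ ∧ Lists (K (Y₀ ∪ TT) \ Core) C₀ ∧ Trivial Y₀) ∧
      ∀ F F' : Code, Filler D F → Filler D F' → SameB D F F' →
        (∀ n, (Mfd false (C n ++ F) ∧ IsConnected (real (C n ++ F))) ∧
          (Mfd false (C n ++ F') ∧ IsConnected (real (C n ++ F'))) ∧
          Nonempty (real (C n ++ F) ≃ₜ real (C n ++ F')) ∧
          (p n → PLHomeo (C n ++ F) (C₀ ++ F) ∧ PLHomeo (C n ++ F') (C₀ ++ F'))) ∧
        (PLHomeo (C₀ ++ F) (C₀ ++ F') →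
          ∀ Ω : PinMinus, Ω.Fills D F Ω.kappa → Ω.Fills D F' 0 →
            (∀ n, PLHomeo (C n ++ F) (C n ++ F') ↔ p n) ∧ ¬ ∃ f, SolvesC f) := by
  obtain ⟨p, Y, Y₀, C, C₀, D, hp, hC, hD, hY, hY₀, hmain⟩ := CC39.main
  refine ⟨p, Y, Y₀, C, C₀, D, hp, hC, hD, hY, hY₀, ?_⟩
  intro F F' hF hF' hFF
  obtain ⟨h1, h2⟩ := hmain F F' hF hF' hFF
  refine ⟨h1, fun h0 Ω hz hz' => h2 h0 ?_⟩
  intro n hn
  obtain ⟨hS, hL, hE⟩ := hY n
  exact not_pl Ω hS hL hD hF hF' hz hz' (hE hn)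

end Pool.Agent.PB
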