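import Pool.Agent.PB.TorLab
import Pool.Agent.CC39.Names

/-! Module PB/GlueLab. The labelling of the manifold `C ++ F`: the labels of the spine on the exterior, and the powers
of the root `t` of the label of the ring on the filler. -/

set_option autoImplicit false

namespace Pool.Agent.PB

open Pool.Agent.DT70 Pool.Agent.MK Pool.Agent.CC39

theorem exists_inv : ∃ inv : ℕ → P, ∀ x : P, (∀ i, 0 ≤ x i + c₀ i) → inv (nam x) = x := by
  classical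
  refine ⟨fun m => if hm : ∃ x : P, (∀ i, 0 ≤ x i + c₀ i) ∧ nam x = m then hm.choose else 0, ?_⟩
  intro x hx
  have hm : ∃ y : P, (∀ i, 0 ≤ y i + c₀ i) ∧ nam y = nam x := ⟨x, hx, rfl⟩
  show (if hm : ∃ y : P, (∀ i, 0 ≤ y i + c₀ i) ∧ nam y = nam x then hm.choose else 0) = x
  rw [dif_pos hm]
  exact nam_inj hm.choose_spec.1 hx hm.choose_spec.2

private theorem low_Z {Y : Set P} (hY : Spine Y) : ∀ q ∈ Y ∪ TT, ∀ i, 0 ≤ q i + c₀ i := by
  rintro q (hq | hq) i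
  · have := hY.low q hq i
    omega
  · have := TT_low hq i
    omega

theorem glue_lab {Y : Set P} {C D F : Code} (hY : Spine Y) (hC : Lists (K (Y ∪ TT) \ Core) C)
    (hF : Filler D F) {Γ G : Type} [Group Γ] [Group G] {Λ : P → Γ} (hΛ : Flat Y Λ) (i : Γ →* G)
    (t : G) (ht : t * t = i (hol Λ)) {m : ℕ → ℕ → Multiplicative ℤ} (hm : FlatL (D ++ F) m)
    (hm2 : ∀ s ∈ Tor \ Core, ∀ x ∈ s, ∀ y ∈ s,
      m (nam x) (nam y) = Multiplicative.ofAdd (2 * cut x y)) :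
    ∃ ℓ : ℕ → ℕ → G, FlatL (C ++ F) ℓ ∧
      (∀ f ∈ C, ∀ u ∈ f, ∀ v ∈ f, ∃ g : Γ, ℓ u v = i g) ∧
      ∀ f ∈ F, ∀ u ∈ f, ∀ v ∈ f, ℓ u v = zpowersHom G t (m u v) := by
  classical
  obtain ⟨c, hc, hcT⟩ := exists_lab hY hΛ
  obtain ⟨inv, hinv⟩ := exists_inv
  have vlow : ∀ s ∈ K (Y ∪ TT), ∀ x ∈ s, ∀ i, 0 ≤ x i + c₀ i :=
    fun _ hs _ hx => K_low (low_Z hY) hs hx
  have tlow : ∀ s ∈ Tor, ∀ x ∈ s, ∀ i, 0 ≤ x i + c₀ i := fun _ hs _ hx =>
    K_low (Z := TT) (fun q hq i => by have := TT_low hq i; omega) hs.1 hx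
  let ℓ : ℕ → ℕ → G := fun u v =>
    if ∃ f ∈ F, u ∈ f ∧ v ∈ f then zpowersHom G t (m u v) else i (c (inv u) (inv v))
  have hℓF : ∀ f ∈ F, ∀ u ∈ f, ∀ v ∈ f, ℓ u v = zpowersHom G t (m u v) := by
    intro f hf u hu v hv
    simp only [ℓ]
    rw [if_pos ⟨f, hf, hu, hv⟩]
  have hCs : ∀ f ∈ C, ∃ s ∈ K (Y ∪ TT), (∀ u ∈ f, ∃ x ∈ s, u = nam x) ∧
      ∀ x ∈ s, ∀ y ∈ s, ℓ (nam x) (nam y) = i (c x y) := by
    intro f hf
    have h1 : f.toFinset ∈ fs C := ⟨f, hf, rfl⟩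
    rw [hC.2] at h1
    obtain ⟨s, ⟨hs, hsC⟩, hfs⟩ := h1
    refine ⟨s, hs, ?_, ?_⟩
    · intro u hu
      have h2 : u ∈ s.image nam := by
        rw [← hfs]
        exact List.mem_toFinset.2 hu
      obtain ⟨x, hx, rfl⟩ := Finset.mem_image.1 h2
      exact ⟨x, hx, rfl⟩
    · intro x hx y hy
      simp only [ℓ]
      rw [hinv x (vlow s hs x hx), hinv y (vlow s hs y hy)]
      split_ifs with h2
      swap
      · rfl
      obtain ⟨f', hf', hxf, hyf⟩ := h2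
      obtain ⟨s', hs', x', hx', hxx⟩ := hF.even f' hf' (nam x) hxf (even_two_mul _)
      have h3 : x = x' := nam_inj (vlow s hs x hx) (tlow s' hs'.1 x' hx') hxx
      subst h3
      have hsT : s ∈ Tor := core_vert (Z := Y ∪ TT) Set.subset_union_right (by
        rintro q (hq | hq)
        · exact Or.inr (hY.top q hq)
        · exact Or.inl hq) hs' hx' hs hx
      rw [hm2 s ⟨hsT, hsC⟩ x hx y hy, hcT s hsT x hx y hy, map_zpow, ← ht, zpowersHom_apply,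
        toAdd_ofAdd, zpow_mul, zpow_two]
  refine ⟨ℓ, ?_, ?_, hℓF⟩
  · intro f hf u hu v hv w hw
    rcases List.mem_append.1 hf with hf | hf
    · obtain ⟨s, hs, h1, h2⟩ := hCs f hf
      obtain ⟨x, hx, rfl⟩ := h1 u hu
      obtain ⟨y, hy, rfl⟩ := h1 v hv
      obtain ⟨z, hz, rfl⟩ := h1 w hw
      rw [h2 x hx y hy, h2 y hy z hz, h2 x hx z hz, ← map_mul, hc s hs x hx y hy z hz]
    · rw [hℓF f hf u hu v hv, hℓF f hf v hv w hw, hℓF f hf u hu w hw, ← map_mul,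
        hm f (List.mem_append_right _ hf) u hu v hv w hw]
  · intro f hf u hu v hv
    obtain ⟨s, hs, h1, h2⟩ := hCs f hf
    obtain ⟨x, hx, rfl⟩ := h1 u hu
    obtain ⟨y, hy, rfl⟩ := h1 v hv
    exact ⟨_, h2 x hx y hy⟩

end Pool.Agent.PB
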