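import Pool.Agent.PB.Alg
import Pool.Agent.PB.GlueLab
import Pool.Agent.CC39.Glue

/-! Module PB/NotPL. The two fillers give different manifolds if the ring has infinite order. -/

set_option autoImplicit false

namespace Pool.Agent.PB

open Pool.Agent.DT70 Pool.Agent.MK Pool.Agent.CC39

theorem not_pl (Ω : PinMinus) {Y : Set P} {C D F F' : Code} (hY : Spine Y)
    (hC : Lists (K (Y ∪ TT) \ Core) C) (hD : Lists (Tor \ Core) D) (hF : Filler D F)
    (hF' : Filler D F') (hz : Ω.Fills D F Ω.kappa) (hz' : Ω.Fills D F' 0) (hE : Essential Y) :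
    ¬ PLHomeo (C ++ F) (C ++ F') := by
  intro hpl
  obtain ⟨Γ, _, Λ, hΛ, hinf⟩ := hE
  obtain ⟨G, _, i, t, χ, ht, hχi, hχt, hk⟩ := exists_amalgam (hol Λ) hinf
  obtain ⟨m, hm, hm2, hpin⟩ := hz.pin
  obtain ⟨ℓ, hℓ, hℓC, hℓF⟩ := glue_lab hY hC hF hΛ i t ht hm hm2
  obtain ⟨x, hx⟩ := hpin Y C hY hC χ ℓ hℓ (by
      intro f hf u hu v hv
      obtain ⟨g, hg⟩ := hℓC f hf u hu v hv
      rw [hg]
      exact DFunLike.congr_fun hχi g) (by
      intro f hf u hu v hv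
      rw [hℓF f hf u hu v hv]
      have h1 : χ.comp (zpowersHom G t) = D4.parity := by
        ext
        simp [hχt, D4.parity]
      exact DFunLike.congr_fun h1 _)
  have hxk : x = Ω.k χ := hz.classes Y C hY hC χ ℓ hℓ x hx
  obtain ⟨ℓ', hℓ', hcls⟩ := Ω.invariant _ _ (glue_mfd hY hC hD hF) (glue_mfd hY hC hD hF') hpl
    χ ℓ hℓ
  rw [← hcls] at hx
  have hx0 := hz'.classes Y C hY hC χ ℓ' hℓ' x hx
  rw [map_zero] at hx0
  exact hk Ω.toTheory (hxk.symm.trans hx0)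

end Pool.Agent.PB
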