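import Pool.Agent.MK.CubePot
import Pool.Agent.MK.ConnK

/-! Module PB/Pot. The edge labelling of a cubical complex gives potentials on the cubes.

`exists_coc`: for a flat edge labelling of a closed set of cells `X` there is a function on pairs
of comparable points of a cube, which is a coboundary on each cube, and has the label
`Λ (ev y + e i)` for the second half (`y i` odd) of an edge, and 1 for the first half.
-/

namespace Pool.Agent.PB

open Pool.Agent.DT70 Pool.Agent.MK

theorem e_inj {i j : Fin 5} (h : e i = e j) : i = j := by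
  have h1 := congrFun h i
  rw [e_apply, e_apply, if_pos rfl] at h1
  by_contra hne
  rw [if_neg hne] at h1
  exact one_ne_zero h1

/-- Two functions with the same increments on the unit steps between `x` and `y`, `x ≤ y`, have
the same increment from `x` to `y`. -/
theorem path_eq {Γ : Type} [Group Γ] (ψ ψ' : P → Γ) (x : P) :
    ∀ (n : ℕ) (y : P), x ≤ y → (∑ i, (y i - x i)) = n →
      (∀ z i, x ≤ z → z + e i ≤ y → (ψ z)⁻¹ * ψ (z + e i) = (ψ' z)⁻¹ * ψ' (z + e i)) →
        (ψ x)⁻¹ * ψ y = (ψ' x)⁻¹ * ψ' y := by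
  intro n
  induction n with
  | zero =>
    intro y hxy hs _
    have h1 : ∀ i ∈ Finset.univ, y i - x i = 0 := by
      rw [← Finset.sum_eq_zero_iff_of_nonneg]
      · rw [hs]; rfl
      · intro i _
        have : x i ≤ y i := hxy i
        omega
    have h2 : y = x := by
      funext i
      have := h1 i (Finset.mem_univ i)
      omega
    rw [h2, inv_mul_cancel, inv_mul_cancel]
  | succ n ih =>
    intro y hxy hs hst
    obtain ⟨i, hi⟩ : ∃ i, x i < y i := by
      by_contra hno
      push Not at hno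
      have h1 : ∑ i, (y i - x i) = 0 := by
        apply Finset.sum_eq_zero
        intro i _
        have h2 : x i ≤ y i := hxy i
        have h3 := hno i
        omega
      rw [h1] at hs
      push_cast at hs
      omega
    have e2 : y - e i + e i = y := sub_add_cancel y (e i)
    have hxz : x ≤ y - e i := by
      intro j
      have h2 : x j ≤ y j := hxy j
      simp only [Pi.sub_apply, e_apply]
      by_cases hji : j = i
      · subst hji
        rw [if_pos rfl]
        omega
      · rw [if_neg hji]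
        omega
    have hle : y - e i ≤ y := by
      intro j
      simp only [Pi.sub_apply, e_apply]
      split_ifs <;> omega
    have hsum : ∑ j, ((y - e i) j - x j) = n := by
      have h1 : ∀ j, (y - e i) j - x j = (y j - x j) - (if j = i then 1 else 0) := by
        intro j
        simp only [Pi.sub_apply, e_apply]
        ring
      simp only [h1]
      rw [Finset.sum_sub_distrib, hs, Finset.sum_ite_eq' Finset.univ i (fun _ => (1 : ℤ)),
        if_pos (Finset.mem_univ i)]
      push_cast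
      ring
    have hI := ih (y - e i) hxz hsum (fun z j hz hzj => hst z j hz (hzj.trans hle))
    have hs' := hst (y - e i) i hxz (by rw [e2])
    rw [e2] at hs'
    calc (ψ x)⁻¹ * ψ y = ((ψ x)⁻¹ * ψ (y - e i)) * ((ψ (y - e i))⁻¹ * ψ y) := by group
      _ = ((ψ' x)⁻¹ * ψ' (y - e i)) * ((ψ' (y - e i))⁻¹ * ψ' y) := by rw [hI, hs']
      _ = (ψ' x)⁻¹ * ψ' y := by group

/-- `path_eq` without the counter. -/
theorem path_eq' {Γ : Type} [Group Γ] (ψ ψ' : P → Γ) (x y : P) (hxy : x ≤ y)
    (h : ∀ z i, x ≤ z → z + e i ≤ y → (ψ z)⁻¹ * ψ (z + e i) = (ψ' z)⁻¹ * ψ' (z + e i)) :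
    (ψ x)⁻¹ * ψ y = (ψ' x)⁻¹ * ψ' y := by
  have h0 : 0 ≤ ∑ i, (y i - x i) := by
    apply Finset.sum_nonneg
    intro i _
    have : x i ≤ y i := hxy i
    omega
  exact path_eq ψ ψ' x (∑ i, (y i - x i)).toNat y hxy (Int.toNat_of_nonneg h0).symm h

theorem pot_steps {Γ : Type} [Group Γ] (q : P) (ψ ψ' : P → Γ)
    (h : ∀ y i, q ≤ y → y + e i ≤ q + 1 →
      (ψ y)⁻¹ * ψ (y + e i) = (ψ' y)⁻¹ * ψ' (y + e i)) :
    ∀ x y, q ≤ x → x ≤ q + 1 → q ≤ y → y ≤ q + 1 → (ψ x)⁻¹ * ψ y = (ψ' x)⁻¹ * ψ' y := by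
  have key : ∀ x, q ≤ x → x ≤ q + 1 → (ψ q)⁻¹ * ψ x = (ψ' q)⁻¹ * ψ' x := by
    intro x hx hx1
    exact path_eq' ψ ψ' q x hx fun z i hz hzi => h z i hz (hzi.trans hx1)
  intro x y hx hx1 hy hy1
  calc (ψ x)⁻¹ * ψ y = ((ψ q)⁻¹ * ψ x)⁻¹ * ((ψ q)⁻¹ * ψ y) := by group
    _ = ((ψ' q)⁻¹ * ψ' x)⁻¹ * ((ψ' q)⁻¹ * ψ' y) := by rw [key x hx hx1, key y hy hy1]
    _ = (ψ' x)⁻¹ * ψ' y := by group

/-- A face of a cell of a closed set of cells. -/
theorem face_mem {X : Set P} (hX : Closed X) {q : P} (hq : q ∈ X) (q' : P)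
    (h : ∀ k, q' k = q k ∨ (Odd (q k) ∧ |q' k - q k| = 1)) : q' ∈ X := by
  have key : ∀ (n : ℕ), ∀ q ∈ X, (∀ k, q' k = q k ∨ (Odd (q k) ∧ |q' k - q k| = 1)) →
      (Finset.univ.filter (fun k => q' k ≠ q k)).card = n → q' ∈ X := by
    intro n
    induction n with
    | zero =>
      intro q hq _ hn
      rw [Finset.card_eq_zero, Finset.filter_eq_empty_iff] at hn
      have : q' = q := by
        funext k
        by_contra hk
        exact hn (Finset.mem_univ k) hk
      rw [this]
      exact hq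
    | succ n ih =>
      intro q hq hk hn
      have hne : (Finset.univ.filter (fun k => q' k ≠ q k)).Nonempty := by
        rw [← Finset.card_pos]
        omega
      obtain ⟨i, hi⟩ := hne
      rw [Finset.mem_filter] at hi
      have hi' := hi.2
      rcases hk i with h1 | ⟨hodd, habs⟩
      · exact absurd h1 hi'
      · have step : ∀ q₁ : P, q₁ ∈ X → q₁ i = q' i → (∀ k, k ≠ i → q₁ k = q k) → q' ∈ X := by
          intro q₁ hq₁ h2 h3
          refine ih q₁ hq₁ ?_ ?_
          · intro k
            by_cases hki : k = i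
            · left; rw [hki, h2]
            · rw [h3 k hki]; exact hk k
          · have h4 : (Finset.univ.filter (fun k => q' k ≠ q₁ k)) =
                (Finset.univ.filter (fun k => q' k ≠ q k)).erase i := by
              ext k
              simp only [Finset.mem_filter, Finset.mem_univ, true_and, Finset.mem_erase]
              by_cases hki : k = i
              · simp [hki, h2]
              · simp [hki, h3 k hki]
            rw [h4, Finset.card_erase_of_mem (by simp [hi']), hn]
            rfl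
        have hX1 := hX q hq i hodd
        rcases (abs_eq (by norm_num : (0 : ℤ) ≤ 1)).mp habs with h5 | h5
        · refine step (q + e i) hX1.1 ?_ ?_
          · simp only [Pi.add_apply, e_apply, if_true]
            omega
          · intro k hki
            simp only [Pi.add_apply, e_apply, if_neg hki, add_zero]
        · refine step (q - e i) hX1.2 ?_ ?_
          · simp only [Pi.sub_apply, e_apply, if_true]
            omega
          · intro k hki
            simp only [Pi.sub_apply, e_apply, if_neg hki, sub_zero]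
  exact key _ q hq h rfl

/-- The label of the unit step from `y` to `y + e i`. -/
noncomputable def stepL {Γ : Type} [Group Γ] (Λ : P → Γ) (y z : P) : Γ := by
  classical exact if ∃ i, z = y + e i ∧ Odd (y i) then Λ (ev y + (z - y)) else 1

theorem stepL_eq {Γ : Type} [Group Γ] (Λ : P → Γ) (y : P) (i : Fin 5) :
    stepL Λ y (y + e i) = if Odd (y i) then Λ (ev y + e i) else 1 := by
  classical
  unfold stepL
  have h1 : (∃ j, y + e i = y + e j ∧ Odd (y j)) ↔ Odd (y i) := by
    constructor
    · rintro ⟨j, hj, ho⟩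
      have := e_inj (add_left_cancel hj)
      rw [this]
      exact ho
    · intro ho
      exact ⟨i, rfl, ho⟩
  by_cases ho : Odd (y i)
  · rw [if_pos ho, if_pos (h1.mpr ho), add_sub_cancel_left]
  · rw [if_neg ho, if_neg (fun hh => ho (h1.mp hh))]

theorem ev_add_odd {y : P} {i : Fin 5} (ho : Odd (y i)) : ev (y + e i) = ev y + e i + e i := by
  funext k
  simp only [ev, Pi.add_apply, e_apply]
  rw [Int.odd_iff] at ho
  by_cases hk : k = i
  · subst hk
    rw [if_pos rfl]
    omega
  · rw [if_neg hk]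
    omega

theorem ev_add_even {y : P} {i : Fin 5} (ho : ¬ Odd (y i)) : ev (y + e i) = ev y := by
  funext k
  simp only [ev, Pi.add_apply, e_apply]
  rw [Int.odd_iff] at ho
  by_cases hk : k = i
  · subst hk
    rw [if_pos rfl]
    omega
  · rw [if_neg hk]
    omega

theorem add_e_ne {y : P} {i j : Fin 5} (hij : i ≠ j) : (y + e i) j = y j := by
  simp only [Pi.add_apply, e_apply]
  rw [if_neg (fun hh => hij hh.symm), add_zero]

/-- The square of two odd directions. -/
theorem square_lab {X : Set P} (hX : Closed X) {Γ : Type} [Group Γ] {Λ : P → Γ} (hΛ : Flat X Λ)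
    {q : P} (hq : q ∈ X) {y : P} {i j : Fin 5} (hij : i < j) (hy : q ≤ y)
    (hy1 : y + e i + e j ≤ q + 1) (hi : Odd (y i)) (hj : Odd (y j)) :
    Λ (ev y + e i) * Λ (ev y + e i + e i + e j) = Λ (ev y + e j) * Λ (ev y + e j + e j + e i) := by
  have hne : i ≠ j := ne_of_lt hij
  have hqi : y i = q i := by
    have h1 := hy1 i
    have h2 : q i ≤ y i := hy i
    simp only [Pi.add_apply, e_apply, if_true, Pi.one_apply] at h1
    rw [if_neg hne] at h1
    omega
  have hqj : y j = q j := by
    have h1 := hy1 j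
    have h2 : q j ≤ y j := hy j
    simp only [Pi.add_apply, e_apply, if_true, Pi.one_apply] at h1
    rw [if_neg hne.symm] at h1
    omega
  have hev : ∀ k, ev y k = q k ∨ (Odd (q k) ∧ |ev y k - q k| = 1) := by
    intro k
    apply ev_face ⟨hy, ?_⟩
    intro k
    have h1 := hy1 k
    simp only [Pi.add_apply, e_apply, Pi.one_apply] at h1 ⊢
    split_ifs at h1 <;> omega
  have hs : ev y + e i + e j ∈ X := by
    apply face_mem hX hq
    intro k
    by_cases hki : k = i
    · left
      subst hki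
      simp only [ev, Pi.add_apply, e_apply, if_true]
      rw [if_neg hne]
      rw [Int.odd_iff] at hi
      omega
    · by_cases hkj : k = j
      · left
        subst hkj
        simp only [ev, Pi.add_apply, e_apply, if_true]
        rw [if_neg hki]
        rw [Int.odd_iff] at hj
        omega
      · have h1 : (ev y + e i + e j) k = ev y k := by
          simp only [Pi.add_apply, e_apply]
          rw [if_neg hki, if_neg hkj]
          ring
        rw [h1]
        exact hev k
  have hd : dirs (ev y + e i + e j) = {i, j} := by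
    ext k
    simp only [dirs, Finset.mem_filter, Finset.mem_univ, true_and, Finset.mem_insert,
      Finset.mem_singleton, ev, Pi.add_apply, e_apply, Int.odd_iff]
    by_cases hki : k = i
    · subst hki
      rw [if_pos rfl, if_neg hne]
      simp only [true_or, iff_true]
      omega
    · by_cases hkj : k = j
      · subst hkj
        rw [if_pos rfl, if_neg hki]
        simp only [or_true, iff_true]
        omega
      · rw [if_neg hki, if_neg hkj]
        simp only [hki, hkj, or_self, iff_false]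
        omega
  have h := hΛ _ hs i j hij hd
  have e1 : ev y + e i + e j - e j = ev y + e i := by abel
  have e2 : ev y + e i + e j + e i = ev y + e i + e i + e j := by abel
  have e3 : ev y + e i + e j - e i = ev y + e j := by abel
  have e4 : ev y + e i + e j + e j = ev y + e j + e j + e i := by abel
  rw [e1, e2, e3, e4] at h
  exact h

theorem cube_lab {X : Set P} (hX : Closed X) {Γ : Type} [Group Γ] {Λ : P → Γ} (hΛ : Flat X Λ)
    {q : P} (hq : q ∈ X) : ∃ ψ : P → Γ, ∀ y i, q ≤ y → y + e i ≤ q + 1 →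
      (ψ y)⁻¹ * ψ (y + e i) = if Odd (y i) then Λ (ev y + e i) else 1 := by
  have key : ∀ y i j, i < j → q ≤ y → y + e i + e j ≤ q + 1 →
      stepL Λ y (y + e i) * stepL Λ (y + e i) (y + e i + e j) =
        stepL Λ y (y + e j) * stepL Λ (y + e j) (y + e i + e j) := by
    intro y i j hij hy hy1
    have hne : i ≠ j := ne_of_lt hij
    have e0 : y + e i + e j = y + e j + e i := by abel
    have h1 : stepL Λ (y + e j) (y + e i + e j) =
        if Odd (y i) then Λ (ev (y + e j) + e i) else 1 := by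
      rw [e0, stepL_eq, add_e_ne hne.symm]
    rw [h1, stepL_eq, stepL_eq, stepL_eq, add_e_ne hne]
    by_cases hi : Odd (y i)
    · by_cases hj : Odd (y j)
      · rw [if_pos hi, if_pos hi, if_pos hj, if_pos hj, ev_add_odd hi, ev_add_odd hj]
        exact square_lab hX hΛ hq hij hy hy1 hi hj
      · rw [if_pos hi, if_pos hi, if_neg hj, if_neg hj, ev_add_even hj, one_mul, mul_one]
    · by_cases hj : Odd (y j)
      · rw [if_neg hi, if_neg hi, if_pos hj, if_pos hj, ev_add_even hi, one_mul, mul_one]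
      · rw [if_neg hi, if_neg hi, if_neg hj, if_neg hj]
  obtain ⟨ψ, _, hψ⟩ := cube_pot (stepL Λ) q (by
    intro y i j hij hy hy1
    rcases lt_or_gt_of_ne hij with h | h
    · exact key y i j h hy hy1
    · have e0 : y + e i + e j = y + e j + e i := by abel
      rw [e0] at hy1 ⊢
      exact (key y j i h hy hy1).symm)
  exact ⟨ψ, fun y i hy hy1 => by rw [← hψ y i hy hy1, stepL_eq]⟩

theorem exists_coc {X : Set P} (hX : Closed X) {Γ : Type} [Group Γ] {Λ : P → Γ}
    (hΛ : Flat X Λ) : ∃ c : P → P → Γ, ∀ q ∈ X, ∃ ψ : P → Γ,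
      (∀ x y, q ≤ x → x ≤ q + 1 → q ≤ y → y ≤ q + 1 → (x ≤ y ∨ y ≤ x) →
        c x y = (ψ x)⁻¹ * ψ y) ∧
      ∀ y i, q ≤ y → y + e i ≤ q + 1 →
        (ψ y)⁻¹ * ψ (y + e i) = if Odd (y i) then Λ (ev y + e i) else 1 := by
  classical
  have h0 : ∀ q, ∃ ψ : P → Γ, q ∈ X → ∀ y i, q ≤ y → y + e i ≤ q + 1 →
      (ψ y)⁻¹ * ψ (y + e i) = if Odd (y i) then Λ (ev y + e i) else 1 := by
    intro q
    by_cases hq : q ∈ X
    · obtain ⟨ψ, hψ⟩ := cube_lab hX hΛ hq
      exact ⟨ψ, fun _ => hψ⟩
    · exact ⟨fun _ => 1, fun h => absurd h hq⟩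
  choose ψ hψ using h0
  -- independence of the cube
  have hle : ∀ q ∈ X, ∀ q' ∈ X, ∀ x y, q ≤ x → y ≤ q + 1 → q' ≤ x → y ≤ q' + 1 → x ≤ y →
      (ψ q x)⁻¹ * ψ q y = (ψ q' x)⁻¹ * ψ q' y := by
    intro q hq q' hq' x y hx hy hx' hy' hxy
    apply path_eq' (ψ q) (ψ q') x y hxy
    intro z i hz hzi
    rw [hψ q hq z i (hx.trans hz) (hzi.trans hy), hψ q' hq' z i (hx'.trans hz) (hzi.trans hy')]
  have hind : ∀ q ∈ X, ∀ q' ∈ X, ∀ x y, q ≤ x → x ≤ q + 1 → q ≤ y → y ≤ q + 1 →
      q' ≤ x → x ≤ q' + 1 → q' ≤ y → y ≤ q' + 1 → (x ≤ y ∨ y ≤ x) →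
      (ψ q x)⁻¹ * ψ q y = (ψ q' x)⁻¹ * ψ q' y := by
    intro q hq q' hq' x y hx hx1 hy hy1 hx' hx1' hy' hy1' hxy
    rcases hxy with h | h
    · exact hle q hq q' hq' x y hx hy1 hx' hy1' h
    · have := hle q hq q' hq' y x hy hx1 hy' hx1' h
      calc (ψ q x)⁻¹ * ψ q y = ((ψ q y)⁻¹ * ψ q x)⁻¹ := by group
        _ = ((ψ q' y)⁻¹ * ψ q' x)⁻¹ := by rw [this]
        _ = (ψ q' x)⁻¹ * ψ q' y := by group
  refine ⟨fun x y => if h : ∃ q, q ∈ X ∧ q ≤ x ∧ x ≤ q + 1 ∧ q ≤ y ∧ y ≤ q + 1 then
    (ψ h.choose x)⁻¹ * ψ h.choose y else 1, fun q hq => ⟨ψ q, ?_, hψ q hq⟩⟩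
  intro x y hx hx1 hy hy1 hxy
  have h : ∃ q, q ∈ X ∧ q ≤ x ∧ x ≤ q + 1 ∧ q ≤ y ∧ y ≤ q + 1 := ⟨q, hq, hx, hx1, hy, hy1⟩
  have hc := h.choose_spec
  beta_reduce
  rw [dif_pos h]
  exact hind h.choose hc.1 q hq x y hc.2.1 hc.2.2.1 hc.2.2.2.1 hc.2.2.2.2 hx hx1 hy hy1 hxy

end Pool.Agent.PB
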