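import Pool.Agent.PB.Defs
import Pool.Agent.PB.Pot
import Pool.Agent.MK.Expand
import Pool.Agent.CC39.Handle
import Pool.Agent.CC39.TorSub

/-! Module PB/TorLab. A flat labelling `Λ` of a spine `Y` gives a labelling of the boundary `K (Y ∪ TT)`
of the thickening, with the value `hol Λ ^ cut` on the solid torus.

`labT Λ`: the labels on the handle: clamp the coordinate 0 to [-4, -2] and the coordinate 2 to [0, 2] (the square
inside of the ring is not in the handle), so a cell of the handle is mapped to a vertex or an edge of the ring. -/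

set_option autoImplicit false

namespace Pool.Agent.PB

open Pool.Agent.DT70 Pool.Agent.MK Pool.Agent.CC39

/-- The labels on the edges of the handle. -/
def labT {Γ : Type} [Group Γ] (Λ : P → Γ) (m : P) : Γ :=
  if m 0 = -3 then (if m 2 ≤ 0 then Λ (pt (-3) 0 0 2 2) else Λ (pt (-3) 0 2 2 2))
  else if m 2 = 1 then (if m 0 ≤ -4 then Λ (pt (-4) 0 1 2 2) else Λ (pt (-2) 0 1 2 2))
  else 1

/-- The labels on the edges of `Y ∪ TT`. -/
def labX {Γ : Type} [Group Γ] (Λ : P → Γ) (m : P) : Γ := if m 4 ≤ 2 then Λ m else labT Λ m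

theorem mem_dirs {q : P} {k : Fin 5} : k ∈ dirs q ↔ Odd (q k) := by
  simp [dirs]

theorem even_of_dirs {q : P} {i k : Fin 5} (h : dirs q = {i}) (hk : k ≠ i) : q k % 2 = 0 := by
  have h1 : k ∉ dirs q := by
    rw [h, Finset.mem_singleton]
    exact hk
  rw [mem_dirs, Int.odd_iff] at h1
  omega

theorem odd_of_dirs {q : P} {i : Fin 5} (h : dirs q = {i}) : q i % 2 = 1 := by
  have h1 : i ∈ dirs q := by
    rw [h, Finset.mem_singleton]
  rwa [mem_dirs, Int.odd_iff] at h1

theorem labX_TT {Γ : Type} [Group Γ] (Λ : P → Γ) {m : P} (hm : m ∈ TT) {i : Fin 5}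
    (hi : dirs m = {i}) : labX Λ m = labT Λ m := by
  unfold labX
  split_ifs with h4
  swap
  · rfl
  obtain ⟨hh, h | h⟩ := hm
  swap
  · omega
  obtain ⟨h1, h3, h4a, h4b, h0a, h0b, h2a, h2b⟩ := h
  have e4 : m 4 = 2 := by omega
  have hpt : m = pt (m 0) 0 (m 2) 2 2 := by
    funext k
    fin_cases k
    · rfl
    · exact h1
    · rfl
    · exact h3
    · exact e4
  have hi' : i = 0 ∨ i = 2 := by
    have ho := odd_of_dirs hi
    fin_cases i
    · left; rfl
    · exfalso
      have : m 1 % 2 = 1 := ho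
      omega
    · right; rfl
    · exfalso
      have : m 3 % 2 = 1 := ho
      omega
    · exfalso
      have : m 4 % 2 = 1 := ho
      omega
  rcases hi' with rfl | rfl
  · have ho := odd_of_dirs hi
    have he := even_of_dirs hi (k := 2) (by decide)
    have e0 : m 0 = -3 := by omega
    have e2 : m 2 = 0 ∨ m 2 = 2 := by omega
    unfold labT
    rw [if_pos e0]
    rcases e2 with e2 | e2
    · rw [if_pos (by omega), hpt, e0, e2]
    · rw [if_neg (by omega), hpt, e0, e2]
  · have ho := odd_of_dirs hi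
    have he := even_of_dirs hi (k := 0) (by decide)
    have e2 : m 2 = 1 := by omega
    have e0 : m 0 = -4 ∨ m 0 = -2 := by omega
    unfold labT
    rw [if_neg (by omega), if_pos e2]
    rcases e0 with e0 | e0
    · rw [if_pos (by omega), hpt, e0, e2]
    · rw [if_neg (by omega), hpt, e0, e2]

theorem closed_TT : Closed TT := by
  intro q hq i hi
  obtain ⟨hh, h⟩ := hq
  rw [Int.odd_iff] at hi
  have key : ∀ ε : ℤ, (ε = 1 ∨ ε = -1) → ∀ q' : P, (∀ k, q' k = q k + if k = i then ε else 0) →
      q' ∈ TT := by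
    intro ε hε q' hq'
    have a0 := hq' 0
    have a1 := hq' 1
    have a2 := hq' 2
    have a3 := hq' 3
    have a4 := hq' 4
    refine ⟨?_, ?_⟩
    · rintro ⟨d0, d2⟩
      fin_cases i <;> simp at a0 a1 a2 a3 a4 hi <;> omega
    · rcases h with h | h
      · left
        fin_cases i <;> simp at a0 a1 a2 a3 a4 hi <;> omega
      · right
        fin_cases i <;> simp at a0 a1 a2 a3 a4 hi <;> omega
  refine ⟨key 1 (Or.inl rfl) _ ?_, key (-1) (Or.inr rfl) _ ?_⟩
  · intro k
    simp only [Pi.add_apply, e]
  · intro k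
    simp only [Pi.sub_apply, e]
    split_ifs <;> ring

theorem closed_YT {Y : Set P} (hY : Spine Y) : Closed (Y ∪ TT) := by
  rintro q (hq | hq) i hi
  · exact ⟨Or.inl (hY.closed q hq i hi).1, Or.inl (hY.closed q hq i hi).2⟩
  · exact ⟨Or.inr (closed_TT q hq i hi).1, Or.inr (closed_TT q hq i hi).2⟩

/-- A direction is removed. -/
theorem dirs_sub {q : P} {i j : Fin 5} (hij : i ≠ j) (h : dirs q = {i, j}) (ε : ℤ)
    (hε : ε = 1 ∨ ε = -1) (q' : P) (hq' : ∀ k, q' k = q k + if k = j then ε else 0) :
    dirs q' = {i} := by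
  have h1 : ∀ k, Odd (q k) ↔ k = i ∨ k = j := by
    intro k
    rw [← mem_dirs, h, Finset.mem_insert, Finset.mem_singleton]
  ext k
  rw [mem_dirs, Finset.mem_singleton, hq']
  by_cases hk : k = j
  · subst hk
    rw [if_pos rfl]
    have h2 : Odd (q k) := (h1 k).2 (Or.inr rfl)
    constructor
    · intro h3
      exfalso
      rw [Int.odd_iff] at h2 h3
      rcases hε with rfl | rfl <;> omega
    · intro h3
      exact absurd h3.symm hij
  · rw [if_neg hk, add_zero, h1]
    constructor
    · rintro (h3 | h3)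
      · exact h3
      · exact absurd h3 hk
    · exact fun h3 => Or.inl h3

theorem add_e (q : P) (j k : Fin 5) : (q + e j) k = q k + if k = j then 1 else 0 := rfl

theorem sub_e (q : P) (j k : Fin 5) : (q - e j) k = q k + if k = j then -1 else 0 := by
  simp only [Pi.sub_apply, e]
  split_ifs <;> ring

theorem labT_one {Γ : Type} [Group Γ] (Λ : P → Γ) {m : P} (h0 : m 0 ≠ -3) (h2 : m 2 ≠ 1) :
    labT Λ m = 1 := by
  unfold labT
  rw [if_neg h0, if_neg h2]

theorem labT_bot {Γ : Type} [Group Γ] (Λ : P → Γ) {m : P} (h0 : m 0 = -3) (h2 : m 2 ≤ 0) :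
    labT Λ m = Λ (pt (-3) 0 0 2 2) := by
  unfold labT
  rw [if_pos h0, if_pos h2]

theorem labT_top {Γ : Type} [Group Γ] (Λ : P → Γ) {m : P} (h0 : m 0 = -3) (h2 : 0 < m 2) :
    labT Λ m = Λ (pt (-3) 0 2 2 2) := by
  unfold labT
  rw [if_pos h0, if_neg (by omega)]

theorem labT_left {Γ : Type} [Group Γ] (Λ : P → Γ) {m : P} (h2 : m 2 = 1) (h0 : m 0 ≤ -4) :
    labT Λ m = Λ (pt (-4) 0 1 2 2) := by
  unfold labT
  rw [if_neg (by omega), if_pos h2, if_pos h0]

theorem labT_right {Γ : Type} [Group Γ] (Λ : P → Γ) {m : P} (h2 : m 2 = 1) (h0 : -3 < m 0) :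
    labT Λ m = Λ (pt (-2) 0 1 2 2) := by
  unfold labT
  rw [if_neg (by omega), if_pos h2, if_neg (by omega)]

theorem labT_congr {Γ : Type} [Group Γ] (Λ : P → Γ) {m m' : P} (h0 : m 0 = m' 0)
    (h2 : m 2 = m' 2) : labT Λ m = labT Λ m' := by
  unfold labT
  rw [h0, h2]

theorem flat_TT {Γ : Type} [Group Γ] (Λ : P → Γ) {q : P} (hq : q ∈ TT) {i j : Fin 5}
    (hij : i < j) (hd : dirs q = {i, j}) :
    labT Λ (q - e j) * labT Λ (q + e i) = labT Λ (q - e i) * labT Λ (q + e j) := by
  have hodd : ∀ k, q k % 2 = 1 ↔ k = i ∨ k = j := by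
    intro k
    rw [← Int.odd_iff, ← mem_dirs, hd, Finset.mem_insert, Finset.mem_singleton]
  have hne : ¬ (q 0 = -3 ∧ q 2 = 1) := hq.1
  have o0 := hodd 0
  have o2 := hodd 2
  -- the coordinates 0 and 2 of the four edges
  have a1 := sub_e q j 0
  have a2 := sub_e q j 2
  have a3 := add_e q i 0
  have a4 := add_e q i 2
  have a5 := sub_e q i 0
  have a6 := sub_e q i 2
  have a7 := add_e q j 0
  have a8 := add_e q j 2
  by_cases hi0 : i = 0
  · subst hi0
    have p0 : q 0 % 2 = 1 := o0.2 (Or.inl rfl)
    rw [if_neg (by omega : ¬ (0 : Fin 5) = j)] at a1 a7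
    simp only [if_true, if_neg (show ¬ (2 : Fin 5) = 0 by decide)] at a3 a4 a5 a6
    by_cases hj2 : j = 2
    · subst hj2
      have p2 : q 2 % 2 = 1 := o2.2 (Or.inr rfl)
      simp only [if_true] at a2 a8
      by_cases c0 : q 0 = -3
      · rw [labT_one Λ (m := q + e 0) (by omega) (by omega),
          labT_one Λ (m := q - e 0) (by omega) (by omega), mul_one, one_mul]
        by_cases c2 : q 2 ≤ -1
        · rw [labT_bot Λ (by omega) (by omega), labT_bot Λ (by omega) (by omega)]
        · rw [labT_top Λ (by omega) (by omega), labT_top Λ (by omega) (by omega)]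
      · rw [labT_one Λ (m := q - e 2) (by omega) (by omega),
          labT_one Λ (m := q + e 2) (by omega) (by omega), mul_one, one_mul]
        by_cases c2 : q 2 = 1
        · by_cases c1 : q 0 ≤ -4
          · rw [labT_left Λ (by omega) (by omega), labT_left Λ (by omega) (by omega)]
          · rw [labT_right Λ (by omega) (by omega), labT_right Λ (by omega) (by omega)]
        · rw [labT_one Λ (by omega) (by omega), labT_one Λ (by omega) (by omega)]
    · have p2 : ¬ q 2 % 2 = 1 := fun h => by
        rcases o2.1 h with h | h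
        · exact absurd h (by decide)
        · exact hj2 h.symm
      rw [if_neg (fun h => hj2 h.symm)] at a2 a8
      rw [labT_one Λ (m := q + e 0) (by omega) (by omega),
        labT_one Λ (m := q - e 0) (by omega) (by omega), mul_one, one_mul]
      exact labT_congr Λ (by omega) (by omega)
  · have p0 : ¬ q 0 % 2 = 1 := fun h => by
      rcases o0.1 h with h | h
      · exact hi0 h.symm
      · subst h
        exact absurd hij (by simp)
    have hj0 : ¬ (0 : Fin 5) = j := by
      rintro rfl
      exact absurd hij (by simp)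
    rw [if_neg hj0] at a1 a7
    rw [if_neg (fun h => hi0 h.symm)] at a3 a5
    by_cases hi2 : i = 2
    · subst hi2
      have hj2 : ¬ (2 : Fin 5) = j := hij.ne
      simp only [if_true] at a4 a6
      rw [if_neg hj2] at a2 a8
      have p2 : q 2 % 2 = 1 := o2.2 (Or.inl rfl)
      rw [labT_one Λ (m := q + e 2) (by omega) (by omega),
        labT_one Λ (m := q - e 2) (by omega) (by omega), mul_one, one_mul]
      exact labT_congr Λ (by omega) (by omega)
    · rw [if_neg (fun h => hi2 h.symm)] at a4 a6
      by_cases hj2 : j = 2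
      · subst hj2
        have p2 : q 2 % 2 = 1 := o2.2 (Or.inr rfl)
        simp only [if_true] at a2 a8
        rw [labT_one Λ (m := q - e 2) (by omega) (by omega),
          labT_one Λ (m := q + e 2) (by omega) (by omega), mul_one, one_mul]
        exact labT_congr Λ (by omega) (by omega)
      · rw [if_neg (fun h => hj2 h.symm)] at a2 a8
        have p2 : ¬ q 2 % 2 = 1 := fun h => by
          rcases o2.1 h with h | h
          · exact hi2 h.symm
          · exact hj2 h.symm
        rw [labT_one Λ (m := q - e j) (by omega) (by omega),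
          labT_one Λ (m := q + e j) (by omega) (by omega),
          labT_one Λ (m := q + e i) (by omega) (by omega),
          labT_one Λ (m := q - e i) (by omega) (by omega)]

theorem flat_labX {Y : Set P} (hY : Spine Y) {Γ : Type} [Group Γ] {Λ : P → Γ} (hΛ : Flat Y Λ) :
    Flat (Y ∪ TT) (labX Λ) := by
  intro q hq i j hij hd
  have hne : i ≠ j := ne_of_lt hij
  have hoi : Odd (q i) := by rw [← mem_dirs, hd]; simp
  have hoj : Odd (q j) := by rw [← mem_dirs, hd]; simp
  have hd' : dirs q = {j, i} := by rw [hd, Finset.pair_comm]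
  rcases hq with hq | hq
  · have h4 : ∀ m ∈ Y, labX Λ m = Λ m := by
      intro m hm
      unfold labX
      rw [if_pos (hY.top m hm)]
    rw [h4 _ (hY.closed q hq j hoj).2, h4 _ (hY.closed q hq i hoi).1,
      h4 _ (hY.closed q hq i hoi).2, h4 _ (hY.closed q hq j hoj).1]
    exact hΛ q hq i j hij hd
  · have d1 : dirs (q - e j) = {i} := dirs_sub hne hd (-1) (Or.inr rfl) _ (fun k => sub_e q j k)
    have d2 : dirs (q + e i) = {j} := dirs_sub hne.symm hd' 1 (Or.inl rfl) _ (fun k => add_e q i k)
    have d3 : dirs (q - e i) = {j} :=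
      dirs_sub hne.symm hd' (-1) (Or.inr rfl) _ (fun k => sub_e q i k)
    have d4 : dirs (q + e j) = {i} := dirs_sub hne hd 1 (Or.inl rfl) _ (fun k => add_e q j k)
    rw [labX_TT Λ (closed_TT q hq j hoj).2 d1, labX_TT Λ (closed_TT q hq i hoi).1 d2,
      labX_TT Λ (closed_TT q hq i hoi).2 d3, labX_TT Λ (closed_TT q hq j hoj).1 d4]
    exact flat_TT Λ hq hij hd

/-- The change of the labels (a function of the corner of the ring) which makes the labels on
three sides of the ring trivial. -/
def gau {Γ : Type} [Group Γ] (Λ : P → Γ) (x : P) : Γ :=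
  if x 0 ≤ -3 then (if x 2 ≤ 1 then 1 else (hol Λ)⁻¹ * Λ (pt (-4) 0 1 2 2))
  else (if x 2 ≤ 1 then Λ (pt (-3) 0 0 2 2) else Λ (pt (-3) 0 0 2 2) * Λ (pt (-2) 0 1 2 2))

theorem ev_le (x : P) (k : Fin 5) : ev x k = 2 * (x k / 2) := rfl

theorem dirs_ev_add (y : P) (i : Fin 5) : dirs (ev y + e i) = {i} := by
  ext k
  rw [mem_dirs, Finset.mem_singleton, add_e, ev_le, Int.odd_iff]
  by_cases hk : k = i
  · rw [if_pos hk]
    constructor
    · exact fun _ => hk
    · intro _
      omega
  · rw [if_neg hk]
    constructor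
    · intro h
      omega
    · exact fun h => absurd h hk

/-- The step of the cocycle on the handle. -/
theorem step_TT {Γ : Type} [Group Γ] (Λ : P → Γ) {q : P} (hq : q ∈ TT) {y : P} {i : Fin 5}
    (hy : q ≤ y) (hyi : y + e i ≤ q + 1) :
    gau Λ y * (if Odd (y i) then labX Λ (ev y + e i) else 1) * (gau Λ (y + e i))⁻¹ =
      hol Λ ^ cut y (y + e i) := by
  have hyb : ∀ k, q k ≤ y k ∧ y k + (if k = i then 1 else 0) ≤ q k + 1 := by
    intro k
    refine ⟨hy k, ?_⟩
    have := hyi k
    rw [add_e] at this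
    simpa using this
  have b0 := hyb 0
  have b2 := hyb 2
  have hne : ¬ (q 0 = -3 ∧ q 2 = 1) := hq.1
  -- the edge is in the handle
  have hm : Odd (y i) → labX Λ (ev y + e i) = labT Λ (ev y + e i) := by
    intro ho
    refine labX_TT Λ ?_ (dirs_ev_add y i)
    refine closed_face closed_TT hq ?_
    intro k
    have hk := hyb k
    rw [Int.odd_iff] at ho
    have h1 : (ev y + e i) k = 2 * (y k / 2) + if k = i then 1 else 0 := add_e _ _ _
    rw [h1]
    by_cases hki : k = i
    · subst hki
      rw [if_pos rfl] at hk ⊢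
      left
      omega
    · rw [if_neg hki] at hk ⊢
      rw [add_zero] at hk ⊢
      rcases Int.emod_two_eq_zero_or_one (q k) with h3 | h3
      · left
        omega
      · right
        refine ⟨Int.odd_iff.2 h3, ?_⟩
        rcases abs_choice (2 * (y k / 2) - q k) with h4 | h4 <;> rw [abs_eq (by norm_num)] <;> omega
  have m0 : (ev y + e i) 0 = 2 * (y 0 / 2) + if 0 = i then 1 else 0 := add_e _ _ _
  have m2 : (ev y + e i) 2 = 2 * (y 2 / 2) + if 2 = i then 1 else 0 := add_e _ _ _
  have z0 := add_e y i 0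
  have z2 := add_e y i 2
  by_cases hi0 : i = 0
  · subst hi0
    simp only [if_true, if_neg (show ¬ (2 : Fin 5) = 0 by decide)] at m0 m2 z0 z2 b0 b2
    by_cases c0 : y 0 = -3
    · have ho : Odd (y 0) := by rw [Int.odd_iff]; omega
      have hc : cut y (y + e 0) = 0 := by
        unfold cut
        rw [if_neg (by omega)]
      rw [if_pos ho, hm ho, hc, zpow_zero]
      by_cases c2 : y 2 ≤ 1
      · rw [labT_bot Λ (by omega) (by omega)]
        unfold gau
        rw [if_pos (by omega), if_pos c2, if_neg (by omega), if_pos (by omega)]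
        group
      · rw [labT_top Λ (by omega) (by omega)]
        unfold gau
        rw [if_pos (by omega), if_neg c2, if_neg (by omega), if_neg (by omega)]
        unfold hol
        group
    · have hs : (if Odd (y 0) then labX Λ (ev y + e 0) else 1) = 1 := by
        split_ifs with ho
        · rw [hm ho]
          rw [Int.odd_iff] at ho
          exact labT_one Λ (by omega) (by omega)
        · rfl
      have hg : gau Λ (y + e 0) = gau Λ y := by
        unfold gau
        rw [z2]
        have : ((y + e 0) 0 ≤ -3) = (y 0 ≤ -3) := by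
          rw [eq_iff_iff]
          omega
        simp only [this, add_zero]
      have hc : cut y (y + e 0) = 0 := by
        unfold cut
        rw [z2]
        simp
      rw [hs, hg, hc, mul_one, mul_inv_cancel, zpow_zero]
  · rw [if_neg (fun h => hi0 h.symm)] at m0 z0 b0
    by_cases hi2 : i = 2
    · subst hi2
      simp only [if_true] at m2 z2 b2
      by_cases c2 : y 2 = 1
      · have ho : Odd (y 2) := by rw [Int.odd_iff]; omega
        rw [if_pos ho, hm ho]
        by_cases c0 : y 0 ≤ -3
        · have hc : cut y (y + e 2) = 1 := by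
            unfold cut
            rw [if_pos (by omega), if_pos (by omega), if_neg (by omega)]
            norm_num
          rw [labT_left Λ (by omega) (by omega), hc, zpow_one]
          unfold gau
          rw [if_pos (by omega), if_pos (by omega), if_pos (by omega), if_neg (by omega)]
          group
        · have hc : cut y (y + e 2) = 0 := by
            unfold cut
            rw [if_neg (by omega)]
          rw [labT_right Λ (by omega) (by omega), hc, zpow_zero]
          unfold gau
          rw [if_neg (by omega), if_pos (by omega), if_neg (by omega), if_neg (by omega)]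
          group
      · have hs : (if Odd (y 2) then labX Λ (ev y + e 2) else 1) = 1 := by
          split_ifs with ho
          · rw [hm ho]
            rw [Int.odd_iff] at ho
            exact labT_one Λ (by omega) (by omega)
          · rfl
        have hg : gau Λ (y + e 2) = gau Λ y := by
          unfold gau
          rw [z0]
          have : ((y + e 2) 2 ≤ 1) = (y 2 ≤ 1) := by
            rw [eq_iff_iff]
            omega
          simp only [this, add_zero]
        have hc : cut y (y + e 2) = 0 := by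
          unfold cut
          have : (2 ≤ (y + e 2) 2) = (2 ≤ y 2) := by
            rw [eq_iff_iff]
            omega
          simp only [this, sub_self, ite_self]
        rw [hs, hg, hc, mul_one, mul_inv_cancel, zpow_zero]
    · rw [if_neg (fun h => hi2 h.symm)] at m2 z2 b2
      have hs : (if Odd (y i) then labX Λ (ev y + e i) else 1) = 1 := by
        split_ifs with ho
        · rw [hm ho]
          exact labT_one Λ (by omega) (by omega)
        · rfl
      have hg : gau Λ (y + e i) = gau Λ y := by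
        unfold gau
        rw [z0, z2]
        simp only [add_zero]
      have hc : cut y (y + e i) = 0 := by
        unfold cut
        rw [z0, z2]
        simp
      rw [hs, hg, hc, mul_one, mul_inv_cancel, zpow_zero]

/-- On a cube of the handle `cut` is the difference of the values of a function. -/
theorem cut_pot {q : P} (hq : q ∈ TT) {x y : P} (hx : q ≤ x) (hx' : x ≤ q + 1) (hy : q ≤ y)
    (hy' : y ≤ q + 1) : cut x y =
      (if q 0 ≤ -4 then (if 2 ≤ y 2 then 1 else 0) else 0) -
      (if q 0 ≤ -4 then (if 2 ≤ x 2 then 1 else 0) else 0) := by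
  have hne : ¬ (q 0 = -3 ∧ q 2 = 1) := hq.1
  have a0 : q 0 ≤ x 0 := hx 0
  have a2 : q 2 ≤ x 2 := hx 2
  have c0 : q 0 ≤ y 0 := hy 0
  have c2 : q 2 ≤ y 2 := hy 2
  have b0 : x 0 ≤ q 0 + 1 := hx' 0
  have b2 : x 2 ≤ q 2 + 1 := hx' 2
  have d0 : y 0 ≤ q 0 + 1 := hy' 0
  have d2 : y 2 ≤ q 2 + 1 := hy' 2
  unfold cut
  split_ifs <;> omega

theorem exists_lab {Y : Set P} (hY : Spine Y) {Γ : Type} [Group Γ] {Λ : P → Γ} (hΛ : Flat Y Λ) :
    ∃ c : P → P → Γ,
      (∀ s ∈ K (Y ∪ TT), ∀ x ∈ s, ∀ y ∈ s, ∀ z ∈ s, c x y * c y z = c x z) ∧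
      ∀ s ∈ Tor, ∀ x ∈ s, ∀ y ∈ s, c x y = hol Λ ^ cut x y := by
  obtain ⟨c, hc⟩ := exists_coc (closed_YT hY) (flat_labX hY hΛ)
  have hcmp : ∀ {s : Finset P}, Simp s → ∀ x ∈ s, ∀ y ∈ s, x ≤ y ∨ y ≤ x := by
    intro s hs x hx y hy
    rcases hs x hx y hy with h | h
    · exact Or.inl h.1
    · exact Or.inr h.1
  refine ⟨fun x y => gau Λ x * c x y * (gau Λ y)⁻¹, ?_, ?_⟩
  · intro s hs x hx y hy z hz
    obtain ⟨q, hq, hsi, -, hb⟩ := K_subset hs
    obtain ⟨ψ, h1, -⟩ := hc q hq
    have e1 := h1 x y (hb x hx).1 (hb x hx).2 (hb y hy).1 (hb y hy).2 (hcmp hsi x hx y hy)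
    have e2 := h1 y z (hb y hy).1 (hb y hy).2 (hb z hz).1 (hb z hz).2 (hcmp hsi y hy z hz)
    have e3 := h1 x z (hb x hx).1 (hb x hx).2 (hb z hz).1 (hb z hz).2 (hcmp hsi x hx z hz)
    simp only [e1, e2, e3]
    group
  · intro s hs x hx y hy
    obtain ⟨q, hq, hsi, -, hb⟩ := K_subset hs.1
    obtain ⟨ψ, h1, h2⟩ := hc q (Or.inr hq)
    have e1 := h1 x y (hb x hx).1 (hb x hx).2 (hb y hy).1 (hb y hy).2 (hcmp hsi x hx y hy)
    have e2 := pot_steps q (fun z => ψ z * (gau Λ z)⁻¹)
      (fun z => hol Λ ^ (if q 0 ≤ -4 then (if 2 ≤ z 2 then (1 : ℤ) else 0) else 0)) (by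
        intro y i hy hyi
        have h3 := step_TT Λ hq hy hyi
        rw [← h2 y i hy hyi] at h3
        have hle : y ≤ y + e i := by
          intro k
          show y k ≤ (y + e i) k
          rw [add_e]
          split_ifs <;> omega
        have hy' : y ≤ q + 1 := le_trans hle hyi
        have hyi' : q ≤ y + e i := le_trans hy hle
        rw [cut_pot hq hy hy' hyi' hyi, zpow_sub] at h3
        beta_reduce
        rw [mul_inv_rev, inv_inv]
        have h4 : gau Λ y * (ψ y)⁻¹ * (ψ (y + e i) * (gau Λ (y + e i))⁻¹) =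
            gau Λ y * ((ψ y)⁻¹ * ψ (y + e i)) * (gau Λ (y + e i))⁻¹ := by group
        rw [h4, h3]
        exact (((Commute.refl (hol Λ)).zpow_zpow _ _).inv_right).eq) x y
      (hb x hx).1 (hb x hx).2 (hb y hy).1 (hb y hy).2
    beta_reduce at e2 ⊢
    rw [e1, cut_pot hq (hb x hx).1 (hb x hx).2 (hb y hy).1 (hb y hy).2, zpow_sub]
    have h4 : gau Λ x * ((ψ x)⁻¹ * ψ y) * (gau Λ y)⁻¹ =
        (ψ x * (gau Λ x)⁻¹)⁻¹ * (ψ y * (gau Λ y)⁻¹) := by group
    rw [h4, e2]
    exact (((Commute.refl (hol Λ)).zpow_zpow _ _).inv_left).eq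

end Pool.Agent.PB
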